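import Pool.Agent.Helper20.FR.St
import Mathlib.Analysis.LocallyConvex.HahnBanach

/-!
# Project R20 (MP_8296bc_an), module HB: Hahn-Banach splitting of a functional on a dual space
-/

set_option autoImplicit false

namespace Pool.Agent.Helper73.R20

open Topology Filter
open Pool.Agent.Helper20.FA
open Pool.Agent.Helper20.FR

section

variable {V : Type} [AddCommGroup V] [Module ℂ V]

/-- `(l, v) ↦ η q l + K ∑ ‖v i‖` -/
private noncomputable def pn (q : Seminorm ℂ V) (n : ℕ) (η K : ℝ) (hη : 0 ≤ η) (hK : 0 ≤ K) :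
    Seminorm ℂ (V × (Fin n → ℂ)) :=
  Seminorm.of (fun w : V × (Fin n → ℂ) => η * q w.1 + K * ∑ i, ‖w.2 i‖)
    (by
      intro w w'
      have h1 : q (w + w').1 ≤ q w.1 + q w'.1 := map_add_le_add q _ _
      have h2 : ∑ i, ‖(w + w').2 i‖ ≤ ∑ i, ‖w.2 i‖ + ∑ i, ‖w'.2 i‖ := by
        rw [← Finset.sum_add_distrib]
        exact Finset.sum_le_sum fun i _ => norm_add_le _ _
      have h3 := mul_le_mul_of_nonneg_left h1 hη
      have h4 := mul_le_mul_of_nonneg_left h2 hK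
      linarith)
    (by
      intro (a : ℂ) (w : V × (Fin n → ℂ))
      have h1 : q (a • w).1 = ‖a‖ * q w.1 := map_smul_eq_mul q a w.1
      have h2 : ∑ i, ‖(a • w).2 i‖ = ‖a‖ * ∑ i, ‖w.2 i‖ := by
        rw [Finset.mul_sum]
        exact Finset.sum_congr rfl fun i _ => by rw [Prod.smul_snd, Pi.smul_apply, norm_smul]
      rw [h1, h2]
      ring)

private theorem pn_apply (q : Seminorm ℂ V) (n : ℕ) (η K : ℝ) (hη : 0 ≤ η) (hK : 0 ≤ K)
    (w : V × (Fin n → ℂ)) :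
    pn q n η K hη hK w = η * q w.1 + K * ∑ i, ‖w.2 i‖ := rfl

/-- `l ↦ (l, (x i l) i)` -/
private noncomputable def jm (n : ℕ) (x : Fin n → V →ₗ[ℂ] ℂ) : V →ₗ[ℂ] (V × (Fin n → ℂ)) :=
  LinearMap.prod LinearMap.id (LinearMap.pi x)

private theorem core (q : Seminorm ℂ V) (F : V →ₗ[ℂ] ℂ) (n : ℕ) (x : Fin n → V →ₗ[ℂ] ℂ)
    (η K : ℝ) (hη : 0 ≤ η) (hK : 0 ≤ K)
    (hF : ∀ l, ‖F l‖ ≤ η * q l + K * ∑ i, ‖x i l‖) :
    ∃ c : Fin n → ℂ, ∀ l, ‖F l - ∑ i, c i * x i l‖ ≤ η * q l := by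
  let S : Submodule ℂ (V × (Fin n → ℂ)) := LinearMap.range (jm n x)
  let f : Module.Dual ℂ S := (F ∘ₗ LinearMap.fst ℂ V (Fin n → ℂ)) ∘ₗ S.subtype
  have hf : ∀ w : S, ‖f w‖ ≤ pn q n η K hη hK (w : V × (Fin n → ℂ)) := by
    rintro ⟨_, l, rfl⟩
    exact hF l
  obtain ⟨g, hg, hgp⟩ := Module.Dual.exists_extension_of_le_seminorm S f hf
  refine ⟨fun i => g (0, Pi.single i 1), fun l => ?_⟩
  have h1 : g (l, fun i => x i l) = F l := hg ⟨jm n x l, l, rfl⟩
  have h2 : ((l, fun i => x i l) : V × (Fin n → ℂ)) =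
      (l, 0) + ∑ i, x i l • ((0, Pi.single i 1) : V × (Fin n → ℂ)) := by
    refine Prod.ext ?_ ?_
    · rw [Prod.fst_add, Prod.fst_sum]
      simp
    · rw [Prod.snd_add, Prod.snd_sum]
      funext k
      rw [Pi.add_apply, Finset.sum_apply]
      simp [Pi.single_apply]
  have h3 : F l - ∑ i, g (0, Pi.single i 1) * x i l = g (l, 0) := by
    rw [← h1, h2, map_add, map_sum]
    have : ∑ i, g (x i l • ((0, Pi.single i 1) : V × (Fin n → ℂ))) =
        ∑ i, g (0, Pi.single i 1) * x i l := by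
      refine Finset.sum_congr rfl fun i _ => ?_
      rw [map_smul, smul_eq_mul, mul_comm]
    rw [this]
    ring
  rw [h3]
  have h4 := hgp (l, 0)
  rw [pn_apply] at h4
  simpa using h4

end

/-- **HB.** -/
theorem hHB : StHB := by
  intro E _ _ F n x η K hη hK hF
  obtain ⟨c, hc⟩ := core (normSeminorm ℂ (E →L[ℂ] ℂ)) F n
    (fun i => { toFun := fun l => l (x i), map_add' := fun _ _ => rfl, map_smul' := fun _ _ => rfl })
    η K hη hK hF
  refine ⟨∑ i, c i • x i, fun l => ?_⟩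
  have h1 : l (∑ i, c i • x i) = ∑ i, c i * l (x i) := by
    rw [map_sum]
    exact Finset.sum_congr rfl fun i _ => by rw [map_smul, smul_eq_mul]
  rw [h1]
  exact hc l

end Pool.Agent.Helper73.R20
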